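import Pool.Agent.R509.GL.Dila
import Pool.Agent.R306.CatHit

/-!
Bounds at the points `α ^ (a n)` for generic `α`.
-/

set_option autoImplicit false

open MeasureTheory Filter Topology Set Real

namespace Pool.Agent.R509.GL

variable {ι : Type*} {Z X : ι → ℝ → ℝ}

open Pool.Agent.R306.CatHit in
/-- **generic powers, each function separately** -/
theorem cat_each [Countable ι] (H : FamC Z X) {a : ℕ → ℝ} (ha : ∀ n, 0 < a n)
    (hinf : Tendsto a atTop atTop) (har : Tendsto (fun n => a (n + 1) / a n) atTop (𝓝 1)) :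
    ∀ᶠ α in residual ℝ, 1 < α → ∀ (i : ι) (κ : ℝ), 0 ≤ κ →
      (ExpOn Z X (Ray i {t : ℝ | ∃ n : ℕ, t = α ^ (a n)}) κ ↔ ExpOn Z X (Ray i univ) κ) := by
  have hpt : ∀ (n : ℕ) (α : ℝ), pt a (fun _ => 1) n α = α ^ (a n) := fun n α => by
    unfold pt; rw [one_mul]
  have hbr : Tendsto (fun n => (Real.log ((fun _ : ℕ => (1 : ℝ)) (n + 1)) -
      Real.log ((fun _ : ℕ => (1 : ℝ)) n)) / a n) atTop (𝓝 0) := by
    simp
  have hinf' : ∀ α : ℝ, 1 < α → Tendsto (fun n => pt a (fun _ => 1) n α) atTop atTop := by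
    intro α hα
    have h1 : Tendsto (fun n => Real.exp (Real.log α * a n)) atTop atTop :=
      Real.tendsto_exp_atTop.comp (hinf.const_mul_atTop (Real.log_pos hα))
    refine h1.congr fun n => ?_
    rw [hpt, Real.rpow_def_of_pos (by linarith)]
  have key : ∀ᶠ α in residual ℝ, ∀ (i : ι) (ν : ℚ) (N : ℕ),
      (∃ᶠ t in atTop, t ∈ BigU Z X i ν N) → 1 < α →
        ∃ n : ℕ, α ^ (a n) ∈ BigU Z X i ν N := by
    rw [eventually_countable_forall]
    intro i
    rw [eventually_countable_forall]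
    intro ν
    rw [eventually_countable_forall]
    intro N
    by_cases hw : ∃ᶠ t in atTop, t ∈ BigU Z X i ν N
    · have hi : BigU Z X i ν N ⊆ closure (interior (BigU Z X i ν N)) := by
        rw [(bigU_open H i ν N).interior_eq]
        exact subset_closure
      filter_upwards [residual_pt (a := a) (b := fun _ => 1) (α₀ := 1) zero_le_one ha
        (fun _ => one_pos) har hbr hinf' hi hw] with α hα _ hα1
      obtain ⟨n, hn⟩ := (hα hα1).exists
      rw [hpt] at hn
      exact ⟨n, hn⟩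
    · exact Eventually.of_forall fun α h => absurd h hw
  filter_upwards [key] with α hα hα1 i κ hκ
  refine ⟨fun hE ε hε => ?_, fun h => expOn_mono (ray_mono i _) h⟩
  by_contra hcon
  have hbad : ¬ ∃ B : ℝ, ∀ T : ℝ, 0 ≤ T → Z i T ≤ B * X i T ^ (κ + ε) := by
    rintro ⟨B, hB⟩
    refine hcon ⟨B, fun j T hT => ?_⟩
    obtain ⟨h1, h2, _⟩ := hT
    have h1' : j = i := h1
    rw [h1']
    exact hB T h2
  obtain ⟨ν, hν1, hν2⟩ := exists_rat_btwn (show κ + ε / 2 < κ + ε by linarith)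
  obtain ⟨B, hB⟩ := hE (ε / 2) (by linarith)
  have hB' : ∀ T ∈ {t : ℝ | 0 ≤ t ∧ ∃ n : ℕ, t = α ^ (a n)}, Z i T ≤ B * X i T ^ (κ + ε / 2) := by
    intro T hT
    refine hB i T ?_
    exact ⟨rfl, hT.1, hT.2⟩
  refine contra_big hν1 hB' fun N => ?_
  have hfr : ∃ᶠ t in atTop, t ∈ BigU Z X i ν N := by
    rw [frequently_atTop]
    intro R
    obtain ⟨T, h1, h2, h3⟩ := bad_far H hκ hε hbad (max (max R (N + 1)) 2)
    have h4 : R ≤ T := ((le_max_left _ _).trans (le_max_left _ _)).trans h1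
    have h5 : (N : ℝ) + 1 ≤ T := ((le_max_right _ _).trans (le_max_left _ _)).trans h1
    have h6 : (N : ℝ) + 1 ≤ X i T := ((le_max_right _ _).trans (le_max_left _ _)).trans h2
    have h7 : 2 ≤ X i T := (le_max_right _ _).trans h2
    refine ⟨T, h4, by linarith, by linarith, ?_⟩
    exact (Real.rpow_lt_rpow_of_exponent_lt (by linarith) hν2).trans_le h3
  obtain ⟨n, hn⟩ := hα i ν N hfr hα1
  exact ⟨α ^ (a n), ⟨Real.rpow_nonneg (by linarith) _, n, rfl⟩, hn⟩

end Pool.Agent.R509.GL
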