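import Pool.Agent.R509.GL.Fam
import Pool.Agent.R306.Dil

/-!
Bounds at almost all dilations.
-/

set_option autoImplicit false

open MeasureTheory Filter Topology Set Real

namespace Pool.Agent.R509.GL

variable {ι : Type*} {Z X : ι → ℝ → ℝ}

/-- from `M` on, `Λ` contains at least `c x` points of `[x/2, x]` at mutual distances at least `1` -/
def Thick2 (c M : ℝ) (Λ : Set ℝ) : Prop := ∀ x : ℝ, M ≤ x → ∃ S : Finset ℝ,
  (∀ l ∈ S, l ∈ Λ ∧ x / 2 ≤ l ∧ l ≤ x) ∧ (∀ l ∈ S, ∀ l' ∈ S, l ≠ l' → 1 ≤ |l - l'|) ∧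
    c * x ≤ (S.card : ℝ)

/-- dilations that bring a point of `Λ` to a given set near `T` -/
lemma dil_core {c M : ℝ} (hc : 0 < c) (hM : 2 ≤ M) {Λ : Set ℝ} (hΛ : Thick2 c M Λ) {T h v : ℝ}
    (hh1 : h ≤ 1 / 4) (hv : 0 ≤ v) {G : Set ℝ} (hG : MeasurableSet G)
    (hGs : ∀ x ∈ G, |x - T| ≤ h) (hGv : ENNReal.ofReal v ≤ volume G) :
    ∃ V : Set ℝ, MeasurableSet V ∧ V ⊆ Icc (-3) 3 ∧ (∀ α ∈ V, ∃ l ∈ Λ, α * l ∈ G) ∧
      ENNReal.ofReal (min (c * v) (v / M)) ≤ volume V := by
  have hM0 : 0 < M := by linarith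
  set W : ℝ → Set ℝ := fun l => {α : ℝ | α * l ∈ G} with hWd
  have hWm : ∀ l, MeasurableSet (W l) := by
    intro l
    have : W l = (fun α : ℝ => α * l) ⁻¹' G := rfl
    rw [this]
    exact hG.preimage (by fun_prop)
  have hWv : ∀ l, 0 < l → ENNReal.ofReal (v / l) ≤ volume (W l) := by
    intro l hl
    have e : W l = {α : ℝ | α * l + 0 ∈ G} := by
      ext α; simp [hWd]
    rw [e, Pool.Agent.R306.vol_pre hl]
    calc ENNReal.ofReal (v / l) = ENNReal.ofReal (1 / l * v) := by congr 1; ring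
      _ = ENNReal.ofReal (1 / l) * ENNReal.ofReal v := ENNReal.ofReal_mul (by positivity)
      _ ≤ _ := by gcongr
  rcases lt_or_ge |T| M with hT | hT
  · -- one point
    obtain ⟨S, hS1, _, hS3⟩ := hΛ M le_rfl
    have hne : S.Nonempty := by
      rw [Finset.nonempty_iff_ne_empty]
      intro h0
      rw [h0, Finset.card_empty, Nat.cast_zero] at hS3
      nlinarith
    obtain ⟨l, hl⟩ := hne
    obtain ⟨hlΛ, hl1, hl2⟩ := hS1 l hl
    have hl0 : 0 < l := by linarith
    refine ⟨W l, hWm l, ?_, fun α hα => ⟨l, hlΛ, hα⟩, ?_⟩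
    · intro α hα
      have h1 : |α * l - T| ≤ h := hGs _ hα
      have h2 : |α| * l ≤ M + 1 / 4 := by
        rw [← abs_of_pos hl0, ← abs_mul]
        have := abs_sub_abs_le_abs_sub (α * l) T
        linarith
      have h3 : |α| ≤ 3 := by
        by_contra hcon
        push Not at hcon
        have h4 : 3 * l < |α| * l := mul_lt_mul_of_pos_right hcon hl0
        linarith
      exact ⟨(abs_le.1 h3).1, (abs_le.1 h3).2⟩
    · refine le_trans ?_ (hWv l hl0)
      apply ENNReal.ofReal_le_ofReal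
      refine (min_le_right _ _).trans ?_
      exact div_le_div_of_nonneg_left hv hl0 hl2
  · -- many points
    obtain ⟨S, hS1, hS2, hS3⟩ := hΛ |T| hT
    have hT2 : 2 ≤ |T| := hM.trans hT
    have hl0 : ∀ l ∈ S, 0 < l := fun l hl => by linarith [(hS1 l hl).2.1]
    have hWb : ∀ l ∈ S, ∀ α ∈ W l, |T| - 1 / 4 ≤ |α| * l ∧ |α| * l ≤ |T| + 1 / 4 := by
      intro l hl α hα
      have h1 : |α * l - T| ≤ h := hGs _ hα
      have h2 := abs_sub_abs_le_abs_sub (α * l) T
      have h3 := abs_sub_abs_le_abs_sub T (α * l)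
      rw [abs_sub_comm T, abs_mul, abs_of_pos (hl0 l hl)] at h3
      rw [abs_mul, abs_of_pos (hl0 l hl)] at h2
      constructor <;> linarith
    refine ⟨⋃ l ∈ S, W l, Finset.measurableSet_biUnion _ fun l _ => hWm l, ?_, ?_, ?_⟩
    · intro α hα
      simp only [mem_iUnion] at hα
      obtain ⟨l, hlS, hα⟩ := hα
      obtain ⟨_, h2⟩ := hWb l hlS α hα
      have hl1 := (hS1 l hlS).2.1
      have h3 : |α| ≤ 3 := by
        by_contra hcon
        push Not at hcon
        have h4 : 3 * l < |α| * l := mul_lt_mul_of_pos_right hcon (hl0 l hlS)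
        linarith
      exact ⟨(abs_le.1 h3).1, (abs_le.1 h3).2⟩
    · intro α hα
      simp only [mem_iUnion] at hα
      obtain ⟨l, hlS, hα⟩ := hα
      exact ⟨l, (hS1 l hlS).1, hα⟩
    · have hdis : (S : Set ℝ).PairwiseDisjoint W := by
        have key : ∀ l ∈ S, ∀ l' ∈ S, l < l' → Disjoint (W l) (W l') := by
          intro l hlS l' hlS' hlt
          rw [Set.disjoint_left]
          intro α h1 h2
          obtain ⟨a1, a2⟩ := hWb l hlS α h1
          obtain ⟨b1, b2⟩ := hWb l' hlS' α h2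
          have hgap := hS2 l hlS l' hlS' hlt.ne
          rw [abs_of_neg (by linarith)] at hgap
          have l2 := (hS1 l hlS).2.2
          have hα1 : 3 / 4 ≤ |α| := by
            by_contra hcon
            push Not at hcon
            have h3 : |α| * l ≤ 3 / 4 * l := mul_le_mul_of_nonneg_right hcon.le (hl0 l hlS).le
            linarith
          have h4 : |α| * 1 ≤ |α| * (l' - l) := mul_le_mul_of_nonneg_left (by linarith) (abs_nonneg α)
          have h5 : |α| * (l' - l) = |α| * l' - |α| * l := by ring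
          linarith
        intro l hlS l' hlS' hne
        rcases lt_or_gt_of_ne hne with h1 | h1
        · exact key l hlS l' hlS' h1
        · exact (key l' hlS' l hlS h1).symm
      rw [measure_biUnion_finset hdis fun l _ => hWm l]
      have hT0 : 0 < |T| := by linarith
      calc ENNReal.ofReal (min (c * v) (v / M)) ≤ ENNReal.ofReal (S.card * (v / |T|)) := by
            apply ENNReal.ofReal_le_ofReal
            refine (min_le_left _ _).trans ?_
            have h2 : c * |T| * (v / |T|) ≤ S.card * (v / |T|) :=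
              mul_le_mul_of_nonneg_right hS3 (by positivity)
            refine le_trans (le_of_eq ?_) h2
            field_simp
        _ = ∑ _l ∈ S, ENNReal.ofReal (v / |T|) := by
            rw [Finset.sum_const, nsmul_eq_mul, ENNReal.ofReal_mul (by positivity),
              ENNReal.ofReal_natCast]
        _ ≤ ∑ l ∈ S, volume (W l) := by
            refine Finset.sum_le_sum fun l hl => le_trans ?_ (hWv l (hl0 l hl))
            apply ENNReal.ofReal_le_ofReal
            exact div_le_div_of_nonneg_left hv (hl0 l hl) (hS1 l hl).2.2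

/-- **almost all dilations, uniformly in the family** -/
theorem dil_unif (H : FamC Z X) {κ c M : ℝ} (hκ : 0 ≤ κ) (hc : 0 < c) (hM : 2 ≤ M) (Λ : ι → Set ℝ)
    (hΛ : ∀ i, Thick2 c M (Λ i)) (β : ι → ℝ)
    (h : ∀ᵐ α : ℝ, ExpOn Z X {q : ι × ℝ | ∃ l ∈ Λ q.1, q.2 = α * l + β q.1} κ) :
    ExpOn Z X univ κ := by
  by_contra hbad
  unfold ExpOn at hbad
  push Not at hbad
  obtain ⟨ε, hε, hbad⟩ := hbad
  have hbad' : ¬ ∃ B : ℝ, ∀ (i : ι) (T : ℝ), (i, T) ∈ (univ : Set (ι × ℝ)) →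
      Z i T ≤ B * X i T ^ (κ + ε) := by
    push Not
    exact hbad
  obtain ⟨p, -, hpZ, hlim⟩ := bad_seq H hκ hε hbad'
  obtain ⟨m, hm, hsh⟩ := H.shift
  obtain ⟨δ, hδ, X₀, hper⟩ := H.persist (κ + ε / 2) (κ + ε) (by linarith) (by linarith)
  obtain ⟨k₀, hk₀⟩ := eventually_atTop.1 (hlim.eventually_ge_atTop X₀)
  set v : ℝ := δ * (1 / 4) with hv
  have hv0 : 0 < v := by positivity
  -- the sets of large values, moved by `β`
  set G : ℕ → Set ℝ := fun k => Seen Z (p (k + k₀)).1 (p (k + k₀)).2 (1 / 4)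
    (X (p (k + k₀)).1 (p (k + k₀)).2 ^ (κ + ε / 2)) (β (p (k + k₀)).1) with hGd
  have hGm : ∀ k, MeasurableSet (G k) := fun k => seen_meas H _ _ _ _ _
  have hGv : ∀ k, ENNReal.ofReal v ≤ volume (G k) := by
    intro k
    rw [hGd]
    dsimp only
    rw [seen_vol]
    exact (hper _ _ (hk₀ _ (by omega)) (hpZ _) (1 / 4) (by norm_num) (by norm_num)).le
  have hGs : ∀ k, ∀ x ∈ G k, |x - ((p (k + k₀)).2 - β (p (k + k₀)).1)| ≤ 1 / 4 := by
    rintro k x ⟨h2, _⟩
    have e : x + β (p (k + k₀)).1 - (p (k + k₀)).2 = x - ((p (k + k₀)).2 - β (p (k + k₀)).1) := by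
      ring
    rwa [e] at h2
  have hex : ∀ k, ∃ V : Set ℝ, MeasurableSet V ∧ V ⊆ Icc (-3) 3 ∧
      (∀ α ∈ V, ∃ l ∈ Λ (p (k + k₀)).1, α * l ∈ G k) ∧
      ENNReal.ofReal (min (c * v) (v / M)) ≤ volume V := fun k =>
    dil_core hc hM (hΛ _) le_rfl hv0.le (hGm k) (hGs k) (hGv k)
  choose V hVm hVs hVG hVv using hex
  have hF := limsup_vol hVm hVs hVv
  have hzero : volume {x : ℝ | ∃ᶠ k in atTop, x ∈ V k} = 0 := by
    refine measure_mono_null ?_ (ae_iff.1 h)
    intro α hα hg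
    have hα' : ∃ᶠ k in atTop, α ∈ V k := hα
    obtain ⟨B, hB⟩ := hg (ε / 4) (by linarith)
    have hlim' : Tendsto (fun k => X (p (k + k₀)).1 (p (k + k₀)).2) atTop atTop :=
      hlim.comp (tendsto_add_atTop_nat k₀)
    refine contra_lim (p := fun k => p (k + k₀)) (κ := κ + ε / 4) (κ' := κ + ε / 2)
      (B := |B| * ((1 + 1 / 4) ^ m) ^ (κ + ε / 4)) (by linarith) hlim' (hα'.mono fun k hk => ?_)
    obtain ⟨l, hl, h4, h5⟩ := hVG k α hk
    exact compare H hm hsh hκ (by linarith) h4 h5 (hB _ _ ⟨l, hl, rfl⟩)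
  rw [hzero] at hF
  have hpos : 0 < min (c * v) (v / M) := lt_min (by positivity) (by
    have : 0 < M := by linarith
    positivity)
  exact absurd hF (not_le.2 (ENNReal.ofReal_pos.2 hpos))

/-- arbitrarily far to the right there are windows of radius `h` of which `U` contains a proportion -/
def PartWindows (U : Set ℝ) (δ h : ℝ) : Prop := ∀ T₀ : ℝ, ∃ T : ℝ, T₀ ≤ T ∧
  ENNReal.ofReal (δ * h) ≤ volume (U ∩ Icc (T - h) (T + h))

/-- the covering estimate -/
lemma cover {Λ : Set ℝ} {c : ℝ} (hc : 0 < c) (hΛ : Pool.Agent.R306.ThickWith c Λ) (β : ℝ) {U : Set ℝ}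
    (hU : MeasurableSet U) {δ h : ℝ} (hδ : 0 < δ) (hh : 0 < h) (hW : PartWindows U δ h) {x r : ℝ}
    (hx : 8 * h ≤ x) (hr : 0 < r) (hrx : r ≤ x / 2) :
    ∃ V : Set ℝ, MeasurableSet V ∧ V ⊆ Metric.closedBall x r ∧
      (∀ α ∈ V, ∃ l ∈ Λ, α * l + β ∈ U) ∧
      ENNReal.ofReal (c * (δ * h) / (2 * x) * r) ≤ volume V := by
  have hx0 : 0 < x := by linarith
  set p : ℝ := x - r with hp
  set q : ℝ := x + r with hq
  have hp0 : 0 < p := by rw [hp]; linarith
  have hpx : p ≤ x := by rw [hp]; linarith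
  have hph : 4 * h ≤ p := by rw [hp]; linarith
  have hq0 : 0 < q := by rw [hq]; linarith
  set s : ℝ := r / p with hs
  have hs0 : 0 < s := div_pos hr hp0
  have hs1 : s ≤ 1 := by rw [hs, div_le_one hp0]; rw [hp]; linarith
  obtain ⟨x₀, hx₀⟩ := hΛ s hs0
  have hqs : (1 + s) * p < q := by
    rw [hs, add_mul, div_mul_cancel₀ _ hp0.ne', hp, hq]; linarith
  obtain ⟨M, hM⟩ : ∃ M : ℝ, M = ((1 + s) * p * h + q * h) / (q - (1 + s) * p) := ⟨_, rfl⟩
  have hqq : 0 < q - (1 + s) * p := by linarith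
  obtain ⟨T, hT, hvol⟩ := hW (max (M + β) (max (q * x₀ + β) (β + h + 1)))
  have hT1 : M + β ≤ T := (le_max_left _ _).trans hT
  have hT2 : q * x₀ + β ≤ T := ((le_max_left _ _).trans (le_max_right _ _)).trans hT
  have hT3 : β + h + 1 ≤ T := ((le_max_right _ _).trans (le_max_right _ _)).trans hT
  set A : ℝ := T - β - h with hA
  set B : ℝ := T - β + h with hB
  have hA0 : 0 < A := by rw [hA]; linarith
  have hB0 : 0 < B := by rw [hB]; linarith
  have hAB : B = A + 2 * h := by rw [hA, hB]; ring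
  have hkey : (1 + s) * p * B ≤ q * A := by
    have h1 : M ≤ T - β := by linarith
    rw [hM, div_le_iff₀ hqq] at h1
    rw [hA, hB]
    nlinarith
  set y : ℝ := B / q with hy
  have hy0 : 0 < y := div_pos hB0 hq0
  have hyx : x₀ ≤ y := by
    rw [hy, le_div_iff₀ hq0, hB]; nlinarith
  have hyA : (1 + s) * y ≤ A / p := by
    rw [hy, le_div_iff₀ hp0, ← mul_div_assoc, div_mul_eq_mul_div, div_le_iff₀ hq0]
    nlinarith
  obtain ⟨S, hS1, hS2, hS3⟩ := hx₀ y hyx
  set G : Set ℝ := U ∩ Icc (T - h) (T + h) with hG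
  have hGm : MeasurableSet G := hU.inter measurableSet_Icc
  set W : ℝ → Set ℝ := fun l => {α : ℝ | α * l + β ∈ G} with hWd
  have hl : ∀ l ∈ S, 0 < l ∧ y ≤ l ∧ l ≤ A / p := fun l hl =>
    ⟨hy0.trans_le (hS1 l hl).2.1, (hS1 l hl).2.1, (hS1 l hl).2.2.trans hyA⟩
  have hWm : ∀ l ∈ S, MeasurableSet (W l) := by
    intro l _
    have : W l = (fun α : ℝ => α * l + β) ⁻¹' G := rfl
    rw [this]
    exact hGm.preimage (by fun_prop)
  have hWIcc : ∀ l ∈ S, ∀ α ∈ W l, A ≤ α * l ∧ α * l ≤ B := by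
    intro l _ α hα
    have h1 : α * l + β ∈ G := hα
    obtain ⟨_, h2, h3⟩ := h1
    constructor
    · rw [hA]; linarith
    · rw [hB]; linarith
  refine ⟨⋃ l ∈ S, W l, Finset.measurableSet_biUnion _ hWm, ?_, ?_, ?_⟩
  · intro α hα
    simp only [mem_iUnion] at hα
    obtain ⟨l, hlS, hα⟩ := hα
    obtain ⟨h1, h2⟩ := hWIcc l hlS α hα
    obtain ⟨l0, l1, l2⟩ := hl l hlS
    rw [Real.closedBall_eq_Icc]
    constructor
    · change p ≤ α
      rw [le_div_iff₀ hp0] at l2
      by_contra hcon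
      push Not at hcon
      have h5 : α * l < p * l := mul_lt_mul_of_pos_right hcon l0
      linarith
    · change α ≤ q
      rw [hy, div_le_iff₀ hq0] at l1
      by_contra hcon
      push Not at hcon
      have h5 : q * l < α * l := mul_lt_mul_of_pos_right hcon l0
      linarith
  · intro α hα
    simp only [mem_iUnion] at hα
    obtain ⟨l, hlS, hα⟩ := hα
    exact ⟨l, (hS1 l hlS).1, hα.1⟩
  · have hdis : (S : Set ℝ).PairwiseDisjoint W := by
      have key : ∀ l ∈ S, ∀ l' ∈ S, l < l' → Disjoint (W l) (W l') := by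
        intro l hlS l' hlS' hlt
        rw [Set.disjoint_left]
        intro α h1 h2
        obtain ⟨a1, a2⟩ := hWIcc l hlS α h1
        obtain ⟨b1, b2⟩ := hWIcc l' hlS' α h2
        have hgap := hS2 l hlS l' hlS' hlt.ne
        rw [abs_of_neg (by linarith)] at hgap
        obtain ⟨l0, _, l2⟩ := hl l hlS
        obtain ⟨l0', _, l2'⟩ := hl l' hlS'
        rw [le_div_iff₀ hp0] at l2 l2'
        have hαp : p ≤ α := by
          by_contra hcon
          push Not at hcon
          have h5 : α * l < p * l := mul_lt_mul_of_pos_right hcon l0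
          linarith
        have h3 : α * l + α * 1 ≤ α * l' := by
          rw [← mul_add]
          exact mul_le_mul_of_nonneg_left (by linarith) (by linarith)
        linarith
      intro l hlS l' hlS' hne
      rcases lt_or_gt_of_ne hne with h1 | h1
      · exact key l hlS l' hlS' h1
      · exact (key l' hlS' l hlS h1).symm
    rw [measure_biUnion_finset hdis hWm]
    have h1 : ∀ l ∈ S, ENNReal.ofReal (δ * h / ((1 + s) * y)) ≤ volume (W l) := by
      intro l hlS
      obtain ⟨l0, l1, l2⟩ := hl l hlS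
      have hl3 : l ≤ (1 + s) * y := (hS1 l hlS).2.2
      change _ ≤ volume {α : ℝ | α * l + β ∈ G}
      rw [Pool.Agent.R306.vol_pre l0]
      calc ENNReal.ofReal (δ * h / ((1 + s) * y)) ≤ ENNReal.ofReal (1 / l * (δ * h)) := by
            apply ENNReal.ofReal_le_ofReal
            rw [div_mul_eq_mul_div, one_mul]
            exact div_le_div_of_nonneg_left (by positivity) l0 hl3
        _ = ENNReal.ofReal (1 / l) * ENNReal.ofReal (δ * h) := ENNReal.ofReal_mul (by positivity)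
        _ ≤ _ := by gcongr
    calc ENNReal.ofReal (c * (δ * h) / (2 * x) * r)
        ≤ ENNReal.ofReal (S.card * (δ * h / ((1 + s) * y))) := by
          apply ENNReal.ofReal_le_ofReal
          have h2 : c * s * y * (δ * h / ((1 + s) * y)) ≤ S.card * (δ * h / ((1 + s) * y)) :=
            mul_le_mul_of_nonneg_right hS3 (by positivity)
          refine le_trans ?_ h2
          have h3 : c * s * y * (δ * h / ((1 + s) * y)) = c * (δ * h) * (s / (1 + s)) := by
            field_simp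
          rw [h3]
          have h4 : r / (2 * x) ≤ s / (1 + s) := by
            rw [hs, div_le_div_iff₀ (by positivity) (by positivity)]
            have e1 : r / p * (2 * x) = r * (2 * x) / p := by ring
            rw [e1, le_div_iff₀ hp0]
            have e2 : r * (1 + r / p) * p = r * (p + r) := by field_simp
            rw [e2]
            have : p + r ≤ 2 * x := by rw [hp]; linarith
            nlinarith
          calc c * (δ * h) / (2 * x) * r = c * (δ * h) * (r / (2 * x)) := by ring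
            _ ≤ c * (δ * h) * (s / (1 + s)) := by
                apply mul_le_mul_of_nonneg_left h4 (by positivity)
      _ = ∑ _l ∈ S, ENNReal.ofReal (δ * h / ((1 + s) * y)) := by
          rw [Finset.sum_const, nsmul_eq_mul, ENNReal.ofReal_mul (by positivity), ENNReal.ofReal_natCast]
      _ ≤ ∑ l ∈ S, volume (W l) := Finset.sum_le_sum h1

/-- almost all dilations of a thick set meet `U` -/
theorem ae_dilation {Λ : Set ℝ} {c : ℝ} (hc : 0 < c) (hΛ : Pool.Agent.R306.ThickWith c Λ) (β : ℝ)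
    {U : Set ℝ} (hU : MeasurableSet U) {δ h₀ : ℝ} (hδ : 0 < δ) (hh₀ : 0 < h₀)
    (hW : ∀ h : ℝ, 0 < h → h ≤ h₀ → PartWindows U δ h) :
    ∀ᵐ α : ℝ, 0 < α → ∃ l ∈ Λ, α * l + β ∈ U := by
  set B : Set ℝ := {α : ℝ | ¬ (0 < α → ∃ l ∈ Λ, α * l + β ∈ U)} with hB
  rw [ae_iff]
  change volume B = 0
  by_contra hne
  have hBpos : B ⊆ Ioi 0 := by
    intro α hα
    have h1 : ¬ (0 < α → ∃ l ∈ Λ, α * l + β ∈ U) := hα
    push Not at h1
    exact h1.1
  have hd := Besicovitch.ae_tendsto_measure_inter_div (volume : Measure ℝ) B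
  have hpos : ∀ᵐ x ∂(volume.restrict B), (0 : ℝ) < x := by
    have h1 : ∀ᵐ x ∂(volume.restrict (Ioi (0 : ℝ))), x ∈ Ioi (0 : ℝ) :=
      ae_restrict_mem measurableSet_Ioi
    exact ae_mono (Measure.restrict_mono hBpos le_rfl) h1
  have hex : ∃ x : ℝ, 0 < x ∧ Tendsto (fun r => volume (B ∩ Metric.closedBall x r) /
      volume (Metric.closedBall x r)) (𝓝[>] 0) (𝓝 1) := by
    have h2 := hpos.and hd
    have : (ae (volume.restrict B)).NeBot := by
      rw [ae_neBot]
      intro h0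
      exact hne (by simpa using congrArg (fun μ : Measure ℝ => μ univ) h0)
    exact h2.exists
  obtain ⟨x, hx0, hlim⟩ := hex
  set h : ℝ := min h₀ (x / 8) with hh
  have hh0 : 0 < h := lt_min hh₀ (by linarith)
  have hhx : 8 * h ≤ x := by
    have : h ≤ x / 8 := min_le_right _ _
    linarith
  have hWh := hW h hh0 (min_le_left _ _)
  set k : ℝ := c * (δ * h) / (2 * x) with hk
  have hk0 : 0 < k := by positivity
  have hle : ∀ᶠ r in 𝓝[>] (0 : ℝ), volume (B ∩ Metric.closedBall x r) /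
      volume (Metric.closedBall x r) ≤ ENNReal.ofReal (1 - k / 2) := by
    have hev : ∀ᶠ r in 𝓝[>] (0 : ℝ), r ≤ x / 2 := by
      filter_upwards [Ioc_mem_nhdsGT (show (0 : ℝ) < x / 2 by linarith)] with r hr
      exact hr.2
    filter_upwards [hev, self_mem_nhdsWithin] with r hr1 hr0
    have hr0 : 0 < r := hr0
    obtain ⟨V, hVm, hVs, hVU, hVv⟩ := cover hc hΛ β hU hδ hh0 hWh hhx hr0 hr1
    have hsub : B ∩ Metric.closedBall x r ⊆ Metric.closedBall x r \ V := by
      rintro α ⟨h1, h2⟩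
      refine ⟨h2, fun h3 => h1 fun _ => hVU α h3⟩
    have hvb : volume (Metric.closedBall x r) = ENNReal.ofReal (2 * r) := Real.volume_closedBall x r
    have h4 : volume (B ∩ Metric.closedBall x r) ≤ ENNReal.ofReal (2 * r - k * r) := by
      refine (measure_mono hsub).trans ?_
      rw [measure_sdiff hVs hVm.nullMeasurableSet
        (ne_top_of_le_ne_top (by rw [hvb]; exact ENNReal.ofReal_ne_top) (measure_mono hVs)),
        hvb, ENNReal.ofReal_sub _ (by positivity)]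
      exact tsub_le_tsub_left hVv _
    rw [hvb]
    refine ENNReal.div_le_of_le_mul ?_
    refine h4.trans ?_
    rw [← ENNReal.ofReal_mul' (by positivity)]
    apply ENNReal.ofReal_le_ofReal
    apply le_of_eq
    ring
  have h5 : (1 : ENNReal) ≤ ENNReal.ofReal (1 - k / 2) := le_of_tendsto hlim hle
  have h6 : ENNReal.ofReal (1 - k / 2) < 1 := by
    rw [← ENNReal.ofReal_one]
    exact (ENNReal.ofReal_lt_ofReal_iff one_pos).2 (by linarith)
  exact absurd h5 (not_le.2 h6)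

/-- the large values beyond `N` -/
def BigU (Z X : ι → ℝ → ℝ) (i : ι) (ν N : ℝ) : Set ℝ := {x : ℝ | N < x ∧ N < X i x ∧ X i x ^ ν < Z i x}

lemma bigU_open (H : FamC Z X) (i : ι) (ν N : ℝ) : IsOpen (BigU Z X i ν N) := by
  have h1 : IsOpen {x : ℝ | N < x} := isOpen_lt continuous_const continuous_id
  have h2 : IsOpen {x : ℝ | N < X i x} := isOpen_lt continuous_const (H.contX i)
  have h3 : IsOpen {x : ℝ | X i x ^ ν < Z i x} := by
    refine isOpen_lt ?_ (H.cont i)
    refine (H.contX i).rpow_const fun x => Or.inl ?_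
    have := H.one i x
    linarith
  exact h1.inter (h2.inter h3)

/-- a bound that fails on `[0, ∞)` fails along a sequence tending to infinity -/
lemma bad_far (H : FamC Z X) {i : ι} {κ ε : ℝ} (hκ : 0 ≤ κ) (hε : 0 < ε)
    (hbad : ¬ ∃ B : ℝ, ∀ T : ℝ, 0 ≤ T → Z i T ≤ B * X i T ^ (κ + ε)) (R : ℝ) :
    ∃ T : ℝ, R ≤ T ∧ R ≤ X i T ∧ X i T ^ (κ + ε) ≤ Z i T := by
  have hbad' : ¬ ∃ B : ℝ, ∀ (j : ι) (T : ℝ), (j, T) ∈ {q : ι × ℝ | q.1 = i ∧ 0 ≤ q.2} →
      Z j T ≤ B * X j T ^ (κ + ε) := by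
    rintro ⟨B, hB⟩
    exact hbad ⟨B, fun T hT => hB i T ⟨rfl, hT⟩⟩
  obtain ⟨p, hpS, hpZ, hlim⟩ := bad_seq H hκ hε hbad'
  obtain ⟨m, hm, hsh⟩ := H.shift
  obtain ⟨k, hk⟩ := (hlim.eventually_gt_atTop (max R ((1 + |R|) ^ m * X i 0))).exists
  obtain ⟨hk1, hk2⟩ := hpS k
  have hk3 := hpZ k
  rw [hk1] at hk hk3
  refine ⟨(p k).2, ?_, ((le_max_left _ _).trans_lt hk).le, hk3⟩
  by_contra hcon
  push Not at hcon
  have h1 := hsh i 0 (p k).2
  rw [zero_add] at h1
  have hx := H.one i 0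
  have h2 : (1 + |(p k).2|) ^ m ≤ (1 + |R|) ^ m := by
    refine Real.rpow_le_rpow (by positivity) ?_ hm
    rw [abs_of_nonneg hk2, abs_of_nonneg (hk2.trans hcon.le)]
    linarith
  have h3 := mul_le_mul_of_nonneg_right h2 (by linarith : 0 ≤ X i 0)
  have h4 := (le_max_right _ _).trans_lt hk
  linarith

lemma bigU_windows (H : FamC Z X) {i : ι} {κ ε : ℝ} (hκ : 0 ≤ κ) (hε : 0 < ε)
    (hbad : ¬ ∃ B : ℝ, ∀ T : ℝ, 0 ≤ T → Z i T ≤ B * X i T ^ (κ + ε)) {ν : ℝ} (hν0 : 0 ≤ ν)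
    (hν : ν < κ + ε) :
    ∃ δ : ℝ, 0 < δ ∧ ∀ N h : ℝ, 0 < h → h ≤ 1 → PartWindows (BigU Z X i ν N) δ h := by
  obtain ⟨m, hm, hsh⟩ := H.shift
  set κ' : ℝ := (ν + (κ + ε)) / 2 with hκ'
  have h1 : ν < κ' := by rw [hκ']; linarith
  obtain ⟨δ, hδ, X₀, hper⟩ := H.persist κ' (κ + ε) (by linarith) (by rw [hκ']; linarith)
  refine ⟨δ, hδ, fun N h h0 hh1 T₀ => ?_⟩
  have hlim : Tendsto (fun x : ℝ => x ^ (κ' - ν)) atTop atTop := tendsto_rpow_atTop (by linarith)
  obtain ⟨Y, hY⟩ := eventually_atTop.1 (hlim.eventually_ge_atTop ((2 : ℝ) ^ (m * ν)))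
  set R : ℝ := max (max T₀ (N + 2)) (max (max X₀ Y) ((|N| + 1) * 2 ^ m)) with hR
  obtain ⟨T, hT1, hT2, hT3⟩ := bad_far H hκ hε hbad R
  have r1 : T₀ ≤ T := ((le_max_left _ _).trans (le_max_left _ _)).trans hT1
  have r2 : N + 2 ≤ T := ((le_max_right _ _).trans (le_max_left _ _)).trans hT1
  have r3 : X₀ ≤ X i T := (((le_max_left _ _).trans (le_max_left _ _)).trans (le_max_right _ _)).trans hT2
  have r4 : Y ≤ X i T := (((le_max_right _ _).trans (le_max_left _ _)).trans (le_max_right _ _)).trans hT2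
  have r5 : (|N| + 1) * 2 ^ m ≤ X i T := ((le_max_right _ _).trans (le_max_right _ _)).trans hT2
  refine ⟨T, r1, (hper i T r3 hT3 h h0 hh1).le.trans (measure_mono ?_)⟩
  rintro x ⟨hx1, hx2⟩
  have hx1' : |x - T| ≤ h := hx1
  have hxT := abs_le.1 hx1'
  have hXT := H.one i T
  have hXx := H.one i x
  have h2m : (0 : ℝ) < 2 ^ m := by positivity
  -- comparison of the conductors
  have s1 : X i x ≤ 2 ^ m * X i T := by
    have := hsh i T (x - T)
    rw [add_sub_cancel] at this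
    refine this.trans (mul_le_mul_of_nonneg_right ?_ (by linarith))
    exact Real.rpow_le_rpow (by positivity) (by linarith) hm
  have s2 : X i T ≤ 2 ^ m * X i x := by
    have := hsh i x (T - x)
    rw [add_sub_cancel, abs_sub_comm] at this
    refine this.trans (mul_le_mul_of_nonneg_right ?_ (by linarith))
    exact Real.rpow_le_rpow (by positivity) (by linarith) hm
  refine ⟨⟨by linarith, ?_, ?_⟩, by linarith, by linarith⟩
  · have h3 : (|N| + 1) * 2 ^ m ≤ X i x * 2 ^ m := by linarith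
    have h4 : |N| + 1 ≤ X i x := le_of_mul_le_mul_right h3 h2m
    linarith [le_abs_self N]
  · refine lt_of_le_of_lt ?_ hx2
    calc X i x ^ ν ≤ (2 ^ m * X i T) ^ ν := Real.rpow_le_rpow (by linarith) s1 hν0
      _ = 2 ^ (m * ν) * X i T ^ ν := by
          rw [Real.mul_rpow h2m.le (by linarith), ← Real.rpow_mul (by norm_num)]
      _ ≤ X i T ^ (κ' - ν) * X i T ^ ν :=
          mul_le_mul_of_nonneg_right (hY _ r4) (Real.rpow_nonneg (by linarith) _)
      _ = X i T ^ κ' := by rw [← Real.rpow_add (by linarith)]; congr 1; ring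

/-- large values at points tending to infinity contradict a bound with a smaller exponent -/
lemma contra_big {i : ι} {S : Set ℝ} {κ ν B : ℝ} (hν : κ < ν)
    (hB : ∀ T ∈ S, Z i T ≤ B * X i T ^ κ) (h : ∀ N : ℕ, ∃ x ∈ S, x ∈ BigU Z X i ν N) : False := by
  choose x hxS hx using h
  refine contra_lim (X := X) (p := fun k => (i, x k)) (κ := κ) (κ' := ν) (B := B) hν ?_ ?_
  · exact tendsto_atTop_mono (fun k => (hx k).2.1.le) tendsto_natCast_atTop_atTop
  · exact Eventually.frequently (Eventually.of_forall fun k => (hx k).2.2.trans_le (hB _ (hxS k)))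

/-- the part of the right half line -/
def Ray (i : ι) (S : Set ℝ) : Set (ι × ℝ) := {q : ι × ℝ | q.1 = i ∧ 0 ≤ q.2 ∧ q.2 ∈ S}

lemma expOn_mono {S S' : Set (ι × ℝ)} (h : S ⊆ S') {κ : ℝ} (hE : ExpOn Z X S' κ) : ExpOn Z X S κ := by
  intro ε hε
  obtain ⟨B, hB⟩ := hE ε hε
  exact ⟨B, fun i T hT => hB i T (h hT)⟩

lemma ray_mono (i : ι) (S : Set ℝ) : Ray i S ⊆ Ray i univ := fun _ hq => ⟨hq.1, hq.2.1, mem_univ _⟩

/-- **almost all dilations, each function separately** -/
theorem dil_each [Countable ι] (H : FamC Z X) {Λ : Set ℝ} {c : ℝ} (hc : 0 < c)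
    (hΛ : Pool.Agent.R306.ThickWith c Λ) (β : ℝ) :
    ∀ᵐ α : ℝ, 0 < α → ∀ (i : ι) (κ : ℝ), 0 ≤ κ →
      (ExpOn Z X (Ray i {t : ℝ | ∃ l ∈ Λ, t = α * l + β}) κ ↔ ExpOn Z X (Ray i univ) κ) := by
  have key : ∀ᵐ α : ℝ, ∀ (i : ι) (ν : ℚ) (N : ℕ),
      (∃ δ : ℝ, 0 < δ ∧ ∀ h : ℝ, 0 < h → h ≤ 1 → PartWindows (BigU Z X i ν N) δ h) → 0 < α →
        ∃ l ∈ Λ, α * l + β ∈ BigU Z X i ν N := by
    rw [ae_all_iff]
    intro i
    rw [ae_all_iff]
    intro ν
    rw [ae_all_iff]
    intro N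
    by_cases hw : ∃ δ : ℝ, 0 < δ ∧ ∀ h : ℝ, 0 < h → h ≤ 1 → PartWindows (BigU Z X i ν N) δ h
    · obtain ⟨δ, hδ, hw⟩ := hw
      filter_upwards [ae_dilation hc hΛ β (bigU_open H i ν N).measurableSet hδ one_pos hw] with α hα _
      exact hα
    · exact Eventually.of_forall fun α h => absurd h hw
  filter_upwards [key] with α hα hα0 i κ hκ
  refine ⟨fun hE ε hε => ?_, fun h => expOn_mono (ray_mono i _) h⟩
  by_contra hcon
  have hbad : ¬ ∃ B : ℝ, ∀ T : ℝ, 0 ≤ T → Z i T ≤ B * X i T ^ (κ + ε) := by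
    rintro ⟨B, hB⟩
    refine hcon ⟨B, fun j T hT => ?_⟩
    obtain ⟨h1, h2, _⟩ := hT
    have h1' : j = i := h1
    rw [h1']
    exact hB T h2
  obtain ⟨ν, hν1, hν2⟩ := exists_rat_btwn (show κ + ε / 2 < κ + ε by linarith)
  obtain ⟨δ, hδ, hw⟩ := bigU_windows H hκ hε hbad (ν := ν) (by linarith) hν2
  obtain ⟨B, hB⟩ := hE (ε / 2) (by linarith)
  have hB' : ∀ T ∈ {t : ℝ | 0 ≤ t ∧ ∃ l ∈ Λ, t = α * l + β}, Z i T ≤ B * X i T ^ (κ + ε / 2) := by
    intro T hT
    refine hB i T ?_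
    exact ⟨rfl, hT.1, hT.2⟩
  refine contra_big hν1 hB' fun N => ?_
  obtain ⟨l, hl, hlU⟩ := hα i ν N ⟨δ, hδ, fun h h0 h1 => hw N h h0 h1⟩ hα0
  refine ⟨α * l + β, ⟨?_, l, hl, rfl⟩, hlU⟩
  have h1 : (N : ℝ) < α * l + β := hlU.1
  have h2 : (0 : ℝ) ≤ N := Nat.cast_nonneg N
  linarith

end Pool.Agent.R509.GL
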