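import Mathlib

/-!
Families of functions on the line whose large values persist at all scales: bounds at almost all
translates.
-/

set_option autoImplicit false

open MeasureTheory Filter Topology Set Real

namespace Pool.Agent.R509.GL

variable {ι : Type*}

/-- what is used about the family `Z i` with conductors `X i t` -/
structure FamC (Z X : ι → ℝ → ℝ) : Prop where
  one : ∀ i t, 1 ≤ X i t
  cont : ∀ i, Continuous (Z i)
  contX : ∀ i, Continuous (X i)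
  persist : ∀ κ μ : ℝ, 0 < κ → κ < μ → ∃ δ : ℝ, 0 < δ ∧ ∃ X₀ : ℝ, ∀ (i : ι) (T : ℝ), X₀ ≤ X i T →
    X i T ^ μ ≤ Z i T → ∀ h : ℝ, 0 < h → h ≤ 1 →
      ENNReal.ofReal (δ * h) < volume {x : ℝ | |x - T| ≤ h ∧ X i T ^ κ < Z i x}
  crude : ∃ C A : ℝ, 0 ≤ C ∧ 0 ≤ A ∧ ∀ i t, Z i t ≤ C * X i t ^ A
  shift : ∃ m : ℝ, 0 ≤ m ∧ ∀ i t u, X i (t + u) ≤ (1 + |u|) ^ m * X i t

/-- the bound with exponent `κ` at all points of `S` -/
def ExpOn (Z X : ι → ℝ → ℝ) (S : Set (ι × ℝ)) (κ : ℝ) : Prop :=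
  ∀ ε : ℝ, 0 < ε → ∃ B : ℝ, ∀ (i : ι) (T : ℝ), (i, T) ∈ S → Z i T ≤ B * X i T ^ (κ + ε)

/-- the points `(i, T + β)` with `(i, T) ∈ S` and `β ∈ K` -/
def Trans (S : Set (ι × ℝ)) (K : Set ℝ) : Set (ι × ℝ) := {q | ∃ β ∈ K, (q.1, q.2 - β) ∈ S}

variable {Z X : ι → ℝ → ℝ}

/-- sets of measure at least `c` in a bounded interval: many points lie in infinitely many of them -/
lemma limsup_vol {A : ℕ → Set ℝ} {a b : ℝ} {c : ENNReal} (hm : ∀ k, MeasurableSet (A k))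
    (hs : ∀ k, A k ⊆ Icc a b) (hc : ∀ k, c ≤ volume (A k)) :
    c ≤ volume {x : ℝ | ∃ᶠ k in atTop, x ∈ A k} := by
  set B : ℕ → Set ℝ := fun N => ⋃ k, ⋃ (_ : N ≤ k), A k with hB
  have hBm : ∀ N, MeasurableSet (B N) := fun N =>
    MeasurableSet.iUnion fun k => MeasurableSet.iUnion fun _ => hm k
  have hanti : Antitone B := by
    intro N N' hNN x hx
    simp only [hB, mem_iUnion] at hx ⊢
    obtain ⟨k, hk, h⟩ := hx
    exact ⟨k, hNN.trans hk, h⟩
  have hBs : ∀ N, B N ⊆ Icc a b := by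
    intro N x hx
    simp only [hB, mem_iUnion] at hx
    obtain ⟨k, _, h⟩ := hx
    exact hs k h
  have hBc : ∀ N, c ≤ volume (B N) := by
    intro N
    refine (hc N).trans (measure_mono ?_)
    intro x hx
    simp only [hB, mem_iUnion]
    exact ⟨N, le_rfl, hx⟩
  have hfin : ∃ N, volume (B N) ≠ ⊤ := ⟨0, ne_top_of_le_ne_top (by
    rw [Real.volume_Icc]; exact ENNReal.ofReal_ne_top) (measure_mono (hBs 0))⟩
  have hlim := tendsto_measure_iInter_atTop (fun N => (hBm N).nullMeasurableSet) hanti hfin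
  have h1 : c ≤ volume (⋂ N, B N) := ge_of_tendsto' hlim hBc
  refine h1.trans (measure_mono ?_)
  intro x hx
  rw [mem_iInter] at hx
  change ∃ᶠ k in atTop, x ∈ A k
  rw [frequently_atTop]
  intro N
  have := hx N
  simp only [hB, mem_iUnion] at this
  obtain ⟨k, hk, h⟩ := this
  exact ⟨k, hk, h⟩

/-- a bound that fails in `S` fails along a sequence with conductors tending to infinity -/
lemma bad_seq (H : FamC Z X) {S : Set (ι × ℝ)} {κ ε : ℝ} (hκ : 0 ≤ κ) (hε : 0 < ε)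
    (hbad : ¬ ∃ B : ℝ, ∀ (i : ι) (T : ℝ), (i, T) ∈ S → Z i T ≤ B * X i T ^ (κ + ε)) :
    ∃ p : ℕ → ι × ℝ, (∀ k, p k ∈ S) ∧ (∀ k, X (p k).1 (p k).2 ^ (κ + ε) ≤ Z (p k).1 (p k).2) ∧
      Tendsto (fun k => X (p k).1 (p k).2) atTop atTop := by
  push Not at hbad
  have h1 : ∀ k : ℕ, ∃ p : ι × ℝ, p ∈ S ∧ ((k : ℝ) + 1) * X p.1 p.2 ^ (κ + ε) < Z p.1 p.2 := by
    intro k
    obtain ⟨i, T, hS, h⟩ := hbad (k + 1)
    exact ⟨(i, T), hS, h⟩
  choose p hpS hp using h1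
  have hX0 : ∀ k, 0 < X (p k).1 (p k).2 := fun k => by linarith [H.one (p k).1 (p k).2]
  refine ⟨p, hpS, fun k => ?_, ?_⟩
  · have h2 : 0 ≤ X (p k).1 (p k).2 ^ (κ + ε) := Real.rpow_nonneg (hX0 k).le _
    have h3 : (0 : ℝ) ≤ k := Nat.cast_nonneg k
    nlinarith [hp k]
  · obtain ⟨C, A, hC, hA, hcr⟩ := H.crude
    rw [tendsto_atTop]
    intro M
    obtain ⟨K, hK⟩ := exists_nat_ge (C * (max M 1) ^ A)
    filter_upwards [eventually_ge_atTop K] with k hk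
    by_contra hcon
    push Not at hcon
    have hx1 := H.one (p k).1 (p k).2
    have h4 := (hp k).trans_le (hcr (p k).1 (p k).2)
    have h5 : C * X (p k).1 (p k).2 ^ A ≤ C * (max M 1) ^ A := by
      refine mul_le_mul_of_nonneg_left ?_ hC
      exact Real.rpow_le_rpow (hX0 k).le (hcon.le.trans (le_max_left _ _)) hA
    have h6 : 1 ≤ X (p k).1 (p k).2 ^ (κ + ε) := Real.one_le_rpow hx1 (by linarith)
    have h7 : (K : ℝ) ≤ k := by exact_mod_cast hk
    have h8 : (0 : ℝ) ≤ k := Nat.cast_nonneg k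
    nlinarith

/-- the points where a function of the family is large, seen from the parameter `β` -/
def Seen (Z : ι → ℝ → ℝ) (i : ι) (T h c s : ℝ) : Set ℝ := {β : ℝ | |β + s - T| ≤ h ∧ c < Z i (β + s)}

lemma seen_meas (H : FamC Z X) (i : ι) (T h c s : ℝ) : MeasurableSet (Seen Z i T h c s) := by
  have h1 : IsClosed {β : ℝ | |β + s - T| ≤ h} := isClosed_le (by fun_prop) continuous_const
  have h2 : IsOpen {β : ℝ | c < Z i (β + s)} :=
    isOpen_lt continuous_const ((H.cont i).comp (by fun_prop))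
  exact h1.measurableSet.inter h2.measurableSet

/-- the measure of a translate -/
lemma seen_vol (i : ι) (T h c s : ℝ) :
    volume (Seen Z i T h c s) = volume {x : ℝ | |x - T| ≤ h ∧ c < Z i x} := by
  have e : Seen Z i T h c s = (fun β : ℝ => β + s) ⁻¹' {x : ℝ | |x - T| ≤ h ∧ c < Z i x} := rfl
  rw [e, measure_preimage_add_right]

/-- comparison with a bound with a smaller exponent -/
lemma contra_lim {p : ℕ → ι × ℝ} {κ κ' B : ℝ} (hκ : κ < κ')
    (hlim : Tendsto (fun k => X (p k).1 (p k).2) atTop atTop)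
    (h : ∃ᶠ k in atTop, X (p k).1 (p k).2 ^ κ' < B * X (p k).1 (p k).2 ^ κ) : False := by
  have h1 : Tendsto (fun k => X (p k).1 (p k).2 ^ (κ' - κ)) atTop atTop :=
    (tendsto_rpow_atTop (by linarith)).comp hlim
  have h2 : ∀ᶠ k in atTop, 0 < X (p k).1 (p k).2 := hlim.eventually_gt_atTop 0
  have h3 := h1.eventually_ge_atTop B
  refine h ?_
  filter_upwards [h2, h3] with k h4 h5 h6
  have h7 : X (p k).1 (p k).2 ^ κ' = X (p k).1 (p k).2 ^ (κ' - κ) * X (p k).1 (p k).2 ^ κ := by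
    rw [← Real.rpow_add h4]; congr 1; ring
  rw [h7] at h6
  have h8 : 0 < X (p k).1 (p k).2 ^ κ := Real.rpow_pos_of_pos h4 _
  nlinarith

/-- a large value at a bounded distance from a point `x` of a set where the bound with the exponent `κ`
holds -/
lemma compare (H : FamC Z X) {i : ι} {x T R κ ε c B m : ℝ} (hm : 0 ≤ m)
    (hsh : ∀ i t u, X i (t + u) ≤ (1 + |u|) ^ m * X i t) (hκ : 0 ≤ κ) (hε : 0 ≤ ε)
    (hx : |x - T| ≤ R) (hZ : c < Z i x) (hB : Z i x ≤ B * X i x ^ (κ + ε)) :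
    c < |B| * ((1 + R) ^ m) ^ (κ + ε) * X i T ^ (κ + ε) := by
  have h7 := hsh i T (x - T)
  rw [add_sub_cancel] at h7
  have hx1 := H.one i x
  have hx2 := H.one i T
  have h7' : X i x ≤ (1 + R) ^ m * X i T := by
    refine h7.trans (mul_le_mul_of_nonneg_right ?_ (by linarith))
    exact Real.rpow_le_rpow (by positivity) (by linarith) hm
  have hR : 0 ≤ R := (abs_nonneg _).trans hx
  have h8 := Real.rpow_le_rpow (by linarith) h7' (show 0 ≤ κ + ε by linarith)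
  rw [Real.mul_rpow (by positivity) (by linarith)] at h8
  calc c < Z i x := hZ
    _ ≤ B * X i x ^ (κ + ε) := hB
    _ ≤ |B| * X i x ^ (κ + ε) :=
        mul_le_mul_of_nonneg_right (le_abs_self B) (Real.rpow_nonneg (by linarith) _)
    _ ≤ |B| * (((1 + R) ^ m) ^ (κ + ε) * X i T ^ (κ + ε)) :=
        mul_le_mul_of_nonneg_left h8 (abs_nonneg B)
    _ = _ := by ring

/-- **core**: if the bound fails at the translates of `S` by elements of a bounded set `K`, then for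
every `h ≤ 1` it fails at the translates of `S` by the elements `β` of a set of measure at least `δ h`, at
distance at most `h` from `K` -/
theorem core (H : FamC Z X) {S : Set (ι × ℝ)} {K : Set ℝ} {a b : ℝ} (hK : K ⊆ Icc a b) {κ : ℝ}
    (hκ : 0 ≤ κ) (hbad : ¬ ExpOn Z X (Trans S K) κ) :
    ∃ δ : ℝ, 0 < δ ∧ ∀ h : ℝ, 0 < h → h ≤ 1 →
      ENNReal.ofReal (δ * h) ≤ volume {β : ℝ | (∀ r : ℝ, h < r → ∃ β₀ ∈ K, |β - β₀| < r) ∧
        ¬ ExpOn Z X (Trans S {β}) κ} := by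
  unfold ExpOn at hbad
  push Not at hbad
  obtain ⟨ε, hε, hbad⟩ := hbad
  have hbad' : ¬ ∃ B : ℝ, ∀ (i : ι) (T : ℝ), (i, T) ∈ Trans S K → Z i T ≤ B * X i T ^ (κ + ε) := by
    push Not
    exact hbad
  obtain ⟨p, hpS, hpZ, hlim⟩ := bad_seq H hκ hε hbad'
  obtain ⟨m, hm, hsh⟩ := H.shift
  obtain ⟨δ, hδ, X₀, hper⟩ := H.persist (κ + ε / 2) (κ + ε) (by linarith) (by linarith)
  obtain ⟨k₀, hk₀⟩ := eventually_atTop.1 (hlim.eventually_ge_atTop X₀)
  refine ⟨δ, hδ, fun h h0 h1 => ?_⟩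
  have hex : ∀ k, ∃ β₀ ∈ K, ((p k).1, (p k).2 - β₀) ∈ S := hpS
  choose β₀ hβK hβS using hex
  set A : ℕ → Set ℝ := fun k => Seen Z (p (k + k₀)).1 (p (k + k₀)).2 h
    (X (p (k + k₀)).1 (p (k + k₀)).2 ^ (κ + ε / 2)) ((p (k + k₀)).2 - β₀ (k + k₀)) with hA
  have hAm : ∀ k, MeasurableSet (A k) := fun k => seen_meas H _ _ _ _ _
  have hAv : ∀ k, ENNReal.ofReal (δ * h) ≤ volume (A k) := by
    intro k
    rw [hA]
    dsimp only
    rw [seen_vol]
    exact (hper _ _ (hk₀ _ (by omega)) (hpZ _) h h0 h1).le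
  have hAd : ∀ k, ∀ β ∈ A k, |β - β₀ (k + k₀)| ≤ h := by
    rintro k β ⟨h2, _⟩
    have e : β + ((p (k + k₀)).2 - β₀ (k + k₀)) - (p (k + k₀)).2 = β - β₀ (k + k₀) := by ring
    rwa [e] at h2
  have hAs : ∀ k, A k ⊆ Icc (a - h) (b + h) := by
    intro k β hβ
    obtain ⟨h3, h4⟩ := abs_le.1 (hAd k β hβ)
    obtain ⟨h5, h6⟩ := hK (hβK (k + k₀))
    exact ⟨by linarith, by linarith⟩
  have hF := limsup_vol hAm hAs hAv
  refine hF.trans (measure_mono ?_)
  intro β hβ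
  have hβ' : ∃ᶠ k in atTop, β ∈ A k := hβ
  refine ⟨fun r hr => ?_, fun hg => ?_⟩
  · obtain ⟨k, hk⟩ := hβ'.exists
    exact ⟨β₀ (k + k₀), hβK _, lt_of_le_of_lt (hAd k β hk) hr⟩
  · obtain ⟨B, hB⟩ := hg (ε / 4) (by linarith)
    have hlim' : Tendsto (fun k => X (p (k + k₀)).1 (p (k + k₀)).2) atTop atTop :=
      hlim.comp (tendsto_add_atTop_nat k₀)
    refine contra_lim (p := fun k => p (k + k₀)) (κ := κ + ε / 4) (κ' := κ + ε / 2)
      (B := |B| * ((1 + h) ^ m) ^ (κ + ε / 4)) (by linarith) hlim' (hβ'.mono fun k hk => ?_)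
    have hd := hAd k β hk
    obtain ⟨h4, h5⟩ := hk
    refine compare H hm hsh hκ (by linarith) h4 h5 (hB _ _ ?_)
    refine ⟨β, rfl, ?_⟩
    change ((p (k + k₀)).1, β + ((p (k + k₀)).2 - β₀ (k + k₀)) - β) ∈ S
    rw [add_sub_cancel_left]
    exact hβS _

/-- **uniform boundedness principle**: if the bound holds at almost all translates of `S` by elements of
an open set, with constants that may depend on the translation, then the constants are uniform on compact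
subsets -/
theorem unif (H : FamC Z X) (S : Set (ι × ℝ)) {κ : ℝ} (hκ : 0 ≤ κ) {U K : Set ℝ} (hU : IsOpen U)
    (hK : IsCompact K) (hKU : K ⊆ U) (h : ∀ᵐ β : ℝ, β ∈ U → ExpOn Z X (Trans S {β}) κ) :
    ExpOn Z X (Trans S K) κ := by
  by_contra hbad
  obtain ⟨r, hr, hthick⟩ := hK.exists_thickening_subset_open hU hKU
  obtain ⟨R, hR⟩ := hK.isBounded.subset_closedBall 0
  rw [Real.closedBall_eq_Icc] at hR
  obtain ⟨δ, hδ, hc⟩ := core H hR hκ hbad
  have h0 : 0 < min 1 (r / 2) := lt_min one_pos (by linarith)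
  have hr2 : min 1 (r / 2) < r := lt_of_le_of_lt (min_le_right _ _) (by linarith)
  have h1 := hc (min 1 (r / 2)) h0 (min_le_left _ _)
  have h2 : volume {β : ℝ | (∀ s : ℝ, min 1 (r / 2) < s → ∃ β₀ ∈ K, |β - β₀| < s) ∧
      ¬ ExpOn Z X (Trans S {β}) κ} = 0 := by
    refine measure_mono_null ?_ (ae_iff.1 h)
    rintro β ⟨h3, h4⟩ h5
    refine h4 (h5 (hthick ?_))
    rw [Metric.mem_thickening_iff]
    obtain ⟨β₀, hβ₀, h6⟩ := h3 r hr2
    exact ⟨β₀, hβ₀, by rwa [Real.dist_eq]⟩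
  rw [h2] at h1
  exact absurd h1 (not_le.2 (ENNReal.ofReal_pos.2 (by positivity)))

/-- **the set of the good shifts is closed in the density topology** -/
theorem dens_closed (H : FamC Z X) (S : Set (ι × ℝ)) {κ β₀ : ℝ} (hκ : 0 ≤ κ)
    (hd : ∀ η : ℝ, 0 < η → ∃ h : ℝ, 0 < h ∧ h ≤ 1 ∧
      volume {β : ℝ | |β - β₀| ≤ h ∧ ¬ ExpOn Z X (Trans S {β}) κ} ≤ ENNReal.ofReal (η * h)) :
    ExpOn Z X (Trans S {β₀}) κ := by
  by_contra hbad
  obtain ⟨δ, hδ, hc⟩ := core H (K := {β₀}) (a := β₀) (b := β₀) (by simp) hκ hbad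
  obtain ⟨h, h0, h1, hv⟩ := hd (δ / 2) (by positivity)
  have h2 := hc h h0 h1
  have h3 : {β : ℝ | (∀ r : ℝ, h < r → ∃ β₁ ∈ ({β₀} : Set ℝ), |β - β₁| < r) ∧
      ¬ ExpOn Z X (Trans S {β}) κ} ⊆ {β : ℝ | |β - β₀| ≤ h ∧ ¬ ExpOn Z X (Trans S {β}) κ} := by
    rintro β ⟨h4, h5⟩
    refine ⟨le_of_forall_gt fun r hr => ?_, h5⟩
    obtain ⟨β₁, hβ₁, h6⟩ := h4 r hr
    rw [mem_singleton_iff] at hβ₁
    rwa [hβ₁] at h6
  have h4 := (h2.trans (measure_mono h3)).trans hv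
  have h5 := (ENNReal.ofReal_le_ofReal_iff (by positivity)).1 h4
  nlinarith [mul_pos hδ h0]

end Pool.Agent.R509.GL
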